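import Pool.Agent.Run7.h72.WF.Final

/-!
# Fujita's very ampleness conjecture for weighted complete intersections of any codimension with
pairwise coprime weights, the weighted variables having pure powers in distinct equations

Let `X = V(f_1, ..., f_c)` be a complete intersection of degrees `d_1, ..., d_c` and dimension `n`
in the weighted projective space `P(a_0, ..., a_{n+c})` over `ℂ`, with pairwise coprime weights.
Suppose that for the variables `x_i` of weight `a_i > 1` there are distinct equations `f_{J(i)}`
which do not vanish at the coordinate points `(0, ..., 1, ..., 0)`, i.e. in which a pure power of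
`x_i` appears (`J`, `hJ`, `hpure`). Then `X` avoids the points with nontrivial stabilisers, `O(1)`
is invertible on `X`, `K_X = O(∑ d_j - ∑ a_i)`, and for `A = O(k)`, `k ≥ 1`, and `m ≥ n + 2` the
bundle `K_X + m A = O(e)` is very ample: its sections given by the forms of weighted degree `e`
have no base point, separate points and separate tangent vectors. The codimension is arbitrary;
`X` need not be smooth, nor even a complete intersection.

The proof. A pair of points, or a tangent vector, which is not separated is a point `y` of `X` with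
values in `ℂ` or `ℂ[ε]` such that all monomials of degree `e` have the same value at `y` and at
`v`. If a coordinate of `v` of weight one is not zero, this gives `y = t v` at once. If not, let
`S` be the set of the nonzero coordinates of `v`. For `i ∈ S` the equation `f_{J(i)}(v) = 0`
contains besides the pure power `x_i^{N_i}` a second monomial in the variables of `S`; let `T ⊆ S`
be minimal such that these monomials, for `i ∈ T`, are monomials in the variables of `T`, and let
`i_0 ∈ T` be the element with the largest degree `d_{J(i_0)}`. Firing chips along the relations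
between the weights given by these monomials, one shows that each vector of integers with support
in `T` is congruent, modulo the relations of the `i ≠ i_0`, to one with `0 ≤ x_i < N_i` for
`i ≠ i_0`. So all numbers `> ∑_{i ∈ T - i_0} (N_i - 1) a_i - a_{i_0}` are in the semigroup of the
weights of `T`. As `e ≥ ∑_{i ∈ T} (N_i - 1) a_i + 1` (here the equations `f_{J(i)}` have to be
distinct), the relations are differences of exponents of monomials of degree `e`, and then all
exponent vectors of degree zero are such differences, up to signs. This gives `y_i = t^{a_i} v_i`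
for `i ∈ T`, and then for all `i`.
-/

set_option autoImplicit false

namespace Pool.Agent.Results.MP_e09b14_ag.DistinctPurePowers

open MvPolynomial

/-- `K_X + m A` is very ample for `A = O(k)`, `k ≥ 1`, `m ≥ n + 2`, if `X` is a weighted complete
intersection of dimension `n` with pairwise coprime weights, such that the variables of weight `> 1`
have pure powers in distinct equations. -/
theorem result (n c : ℕ) (a : Fin (n + c + 1) → ℕ) (ha : ∀ i, 0 < a i)
    (hcop : ∀ i i', i ≠ i' → Nat.Coprime (a i) (a i')) (d : Fin c → ℕ) (hd : ∀ j, 0 < d j)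
    (f : Fin c → MvPolynomial (Fin (n + c + 1)) ℂ) (hf : ∀ j, IsWeightedHomogeneous a (f j) (d j))
    (J : {i // 1 < a i} → Fin c) (hJ : Function.Injective J)
    (hpure : ∀ i, eval (Pi.single i.1 1 : Fin (n + c + 1) → ℂ) (f (J i)) ≠ 0)
    (k m : ℕ) (hk : 1 ≤ k) (hm : n + 2 ≤ m) :
    ∃ e : ℕ, (e : ℤ) = ∑ j, (d j : ℤ) - ∑ i, (a i : ℤ) + m * k ∧
    -- no base points
    (∀ v : Fin (n + c + 1) → ℂ, v ≠ 0 → (∀ j, eval v (f j) = 0) →
      ∃ s : MvPolynomial (Fin (n + c + 1)) ℂ, IsWeightedHomogeneous a s e ∧ eval v s ≠ 0) ∧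
    -- points are separated
    (∀ v w : Fin (n + c + 1) → ℂ, v ≠ 0 → w ≠ 0 → (∀ j, eval v (f j) = 0) →
      (∀ j, eval w (f j) = 0) → (¬ ∃ t : ℂ, t ≠ 0 ∧ ∀ i, w i = t ^ a i * v i) →
      ∃ s : MvPolynomial (Fin (n + c + 1)) ℂ, IsWeightedHomogeneous a s e ∧
        eval v s = 0 ∧ eval w s ≠ 0) ∧
    -- tangent vectors are separated
    (∀ v u : Fin (n + c + 1) → ℂ, v ≠ 0 → (∀ j, eval v (f j) = 0) →
      (∀ j, ∑ i, eval v (pderiv i (f j)) * u i = 0) → (¬ ∃ τ : ℂ, ∀ i, u i = τ * (a i * v i)) →
      ∃ s : MvPolynomial (Fin (n + c + 1)) ℂ, IsWeightedHomogeneous a s e ∧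
        eval v s = 0 ∧ ∑ i, eval v (pderiv i s) * u i ≠ 0) := by
  classical
  have hmk : n + 2 ≤ m * k := hm.trans (Nat.le_mul_of_pos_right _ hk)
  obtain ⟨e, he⟩ : ∃ e : ℕ, e + ∑ i, a i = ∑ j, d j + m * k := by
    have h1 : ∑ i, a i ≤ ∑ j, d j + m * k := by
      by_contra hcon
      have h2 := Pool.Agent.Run7.h72.WF.e_pos (e := 0) ha hd hf J hJ hpure (by omega)
      omega
    exact ⟨∑ j, d j + m * k - ∑ i, a i, by omega⟩
  have he' : ∑ j, d j + (n + c + 1) + 1 ≤ e + ∑ i, a i + c := by omega
  have hmain : ∀ (B : Type) [CommRing B] [Algebra ℂ B] (v : Fin (n + c + 1) → ℂ), v ≠ 0 →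
      (∀ j, eval v (f j) = 0) → ∀ y : Fin (n + c + 1) → B,
      (∀ q : Fin (n + c + 1) → ℕ, ∑ i, q i * a i = e →
        ∏ i, y i ^ q i = ∏ i, algebraMap ℂ B (v i) ^ q i) →
      (∀ j, aeval y (f j) = 0) →
      ∃ t : Bˣ, ∀ i, y i = (t : B) ^ a i * algebraMap ℂ B (v i) :=
    fun B _ _ v hv hfv y hmono hfy =>
      Pool.Agent.Run7.h72.WF.main ha hcop hd hf J hJ hpure he' hv hfv hmono hfy
  have hpos : 0 < e := Pool.Agent.Run7.h72.WF.e_pos ha hd hf J hJ hpure he'
  have hb := Pool.Agent.Run7.h72.WF.base ha hf hmain
  refine ⟨e, ?_, hb, ?_, ?_⟩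
  · have h1 : ((e + ∑ i, a i : ℕ) : ℤ) = ((∑ j, d j + m * k : ℕ) : ℤ) := by exact_mod_cast he
    push_cast at h1
    linarith
  · intro v w hv hw hfv hfw hne
    by_contra hcon
    push Not at hcon
    exact hne (Pool.Agent.Run7.h72.WF.points hf hpos hmain hb v w hv hw hfv hfw hcon)
  · intro v u hv hfv hfu hne
    by_contra hcon
    push Not at hcon
    exact hne (Pool.Agent.Run7.h72.WF.tangents ha hf hpos hmain hb v u hv hfv hfu hcon)

end Pool.Agent.Results.MP_e09b14_ag.DistinctPurePowers
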