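import Pool.Agent.Run7.h72.QMain

/-!
# Log canonical pairs dominated by the product of a pair and a curve

Let `(X, Γ)` be a pair of dimension `n` over `ℂ`, with any rational coefficients at most `1`, and `C` a
smooth projective curve of any genus, with a finite set `B` of points, possibly empty. Let `(W, Δ)` be
a projective log canonical pair, `W` normal, with rational coefficients, and let `X × C ⇢ W` be a
dominant rational map of finite degree. It need not be related to the product structure, and it need
not be the quotient by a group. We suppose that the boundary `Δ` corresponds to `Γ × C + X × B`, i.e.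
the pull-back of `Δ` is at least `Γ × C` along the divisors of `Γ` (or the coefficient of `Δ` is `1`),
the coefficient is `1` below the divisors of `X × B`, and the prime divisors over `W` with negative
discrepancy lie below the boundary of `X × C`. The map may be ramified in any way away from the boundary.

Let `d` be the number of different points of `X` below a general fibre of `X × C ⇢ W`, i.e. the degree
over `W` of the image of `X × C` in `W × X`. Suppose that `N (K_X + Γ) - M H` is effective, where `H` is
a linear system which separates the points of `X` below a general fibre, and `M > 2 N (d - 1)`. More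
generally one can use linear systems `H i` on `X` which separate these points one after the other: then
`d` is replaced by the degrees `d i` of the steps, `N (K_X + Γ) - ∑ M i H i` is effective and
`M i > 2 N (d i - 1)`. Let `a` be the dimension of the image of `X` under the map given by the `H i`.

**Theorem.** The following are equivalent: `κ(K_W + Δ) = -∞`; `K_W + Δ` is not pseudo-effective, i.e.
`h⁰(m (K_W + Δ) + A) = 0` for large `m`, for all `A`; `W` is `A¹`-uniruled away from the places with
negative discrepancy (the support of `Δ`, if `W` is canonical elsewhere); `κ(K_W + Δ) < a`.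

So if `K_W + Δ` is pseudo-effective then `κ(K_W + Δ) ≥ a`. If the `H i` define a generically finite
map then `a = n`, and `κ(K_W + Δ) ≥ dim W - 1`. If in addition the pair is klt then the known theorems
give the statement of the problem (this is not part of the Lean proof): if `K_W + Δ` is not
pseudo-effective then an MMP ends with a Mori fibre space (Birkar, Cascini, Hacon, McKernan), and this
happens if and only if `W` is `A¹`-uniruled away from the places with negative discrepancy; if `K_W + Δ`
is pseudo-effective then the general fibre of the Iitaka fibration is a point or a curve, and an MMP ends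
with a good minimal model (Lai; Gongyo and Lehmann), so that `K + Δ` becomes nef.

Example: let `X` be the projective space and `D` a hypersurface of degree `δ` with normal crossings,
`Γ = (1 - 1 / r) D` (on blow-ups of `X` the coefficients are the negatives of the discrepancies). The
condition is `(1 - 1 / r) δ > n - 1 + 2 d`. There are no canonical forms on `X`, and only the
`N`-canonical forms with poles of order at most `N (1 - 1 / r)` along `D` are used.

Proof. Let `T` be the function field of the image of `X × C` in `W × X`. For a differential `φ` on `C`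
(with at most simple poles at `B`) and a section `ψ` of `N (K_X + Γ)` the product of `ψ` and the `N`-th
power of the trace of `φ` on `T` is an `N`-canonical form of `T`. At a place of `T` over the place `p` of
`X`, with ramification index `e`, its order is at least `N (e (1 - Γ p) - 1)`, and this is at least
`- N e Γ p`. The same holds for the products of `ψ` with the monomials in the functions of the systems
`H i`. So if there is a nonzero trace then the norm principle for pairs gives sections of multiples of
`K_W + Δ`: if `t` generates the last step of the tower `ℂ(W) ⊂ ... ⊂ T` then the norm of a form `ω`,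
multiplied by a power of the norm of the derivative of the minimal polynomial of `t`, is a section, if
all `t ^ j ω` are, `j ≤ 2 N (d - 1)`. If all the traces are zero then the images in `W` of the curves
`{x} × C` are rational, with at most one point in the boundary, and so `W` is covered by images of the
affine line which do not meet the places with negative discrepancy.

The results on rational curves and traces for the product with a curve, and the definitions of projective
pairs, `κ` and `ν`, are the ones of the starting tree (`Pool.Agent.N145.SX`, `Pool.Agent.Y172`,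
`Pool.Agent.Y191` and the parts used there).
-/

set_option autoImplicit false
set_option linter.overlappingInstances false
set_option maxHeartbeats 4000000
set_option synthInstance.maxHeartbeats 400000

open FF Module IntermediateField Pool.Agent Pool.Agent.W602.GT Run7.h72
open Pool.Agent.W619.PL (IsA1Uniruled)
open Pool.Agent.Y172 (NormalModel IsPrimeDivisor Effective Integral LogCanonical kodairaDim
  numericalDim)
open Pool.Agent.Y191 (LogDisc)

namespace Pool.Agent.Results.MP_c1e25c_ag.PairsTimesCurve

/-- The place `Q` of the function field `K` of `X × C` lies over a place of `X` with positive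
coefficient, or over a point in `B`. -/
def OverBoundary {K : Type} [Field K] [Algebra ℂ K] {E C : IntermediateField ℂ K}
    (Γ : Place ℂ E → ℚ) (B : Set (Place ℂ C)) (Q : Place ℂ K) : Prop :=
  (∃ (p : Place ℂ E) (e : ℕ), 0 < Γ p ∧ Over Q p e) ∨ ∃ q ∈ B, ∃ e : ℕ, Over Q q e

/-- The discrepancy of the pair `(W, Δ)` along the prime divisor `P` over `W` is negative. -/
def NegativeDiscrepancy {L : Type} [Field L] [Algebra ℂ L] {N₀ : ℕ} (y : Fin (N₀ + 1) → L) (n : ℕ)
    (Δ : Place ℂ L → ℚ) (P : Place ℂ L) : Prop :=
  Divisorial n P ∧ ¬ LogDisc y n Δ P 1

/-- **Pairs dominated by the product of a pair and a curve.** Let `K` be the function field of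
`X × C`, i.e. the compositum of the function fields `E` of the variety `X` of dimension `n` and `C` of
the curve, of transcendence degree `n + 1`. Let `Γ p ≤ 1` be the coefficients of a boundary at the
places `p` over `X` and `B` a finite set of points of the curve. Let `(W, Δ)` be a projective log
canonical pair; the function field `L` of `W` is a subfield of `K` such that the extension is finite.
Suppose that for all places `Q` of `K` over a prime divisor `P` of `W`, with ramification index `e`: if
`Q` lies over `p` with ramification index `e'` then `e' Γ p ≤ e Δ P` or `Δ P ≥ 1`; if `Q` lies over a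
point of `B` then `Δ P ≥ 1`. Suppose that all the places over the prime divisors over `W` with negative
discrepancy lie over places with `Γ p > 0` or over points of `B`. Let `x i` (`i < c`) be families of
rational functions on `X`, each containing `1`, with `L(x 0, …, x (c - 1)) = L(E)`, let
`L_i = L(x 0, …, x (i - 1))` (this is `Lv L x i`), and let `a` of these functions be algebraically
independent. Suppose that there are `N > 0`, `M i` and a nonzero `N`-canonical form `ψ` on `X` such that
the orders of all products of `ψ` with `∏ (x i (f i)) ^ M i` at all places `p` over `X` are at least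
`- N Γ p`, and `M i > 2 N ([L_{i + 1} : L_i] - 1)`. Then the following are equivalent: the Kodaira
dimension of `K_W + Δ` is `-∞`; its numerical dimension is `-∞` (with respect to all integral divisors
`A ≥ 0`), i.e. `K_W + Δ` is not pseudo-effective; `W` is `A¹`-uniruled away from the places with
negative discrepancy; the Kodaira dimension of `K_W + Δ` is smaller than `a`. -/
theorem result (K : Type) [Field K] [Algebra ℂ K] [Algebra.EssFiniteType ℂ K] (n : ℕ)
    (E C : IntermediateField ℂ K) [Algebra.EssFiniteType ℂ E] [IsFF ℂ C] (hEC : E ⊔ C = ⊤)
    (hE : Algebra.trdeg ℂ E = n) (hK : Algebra.trdeg ℂ K = (n + 1 : ℕ)) (Γ : Place ℂ E → ℚ)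
    (hΓ : ∀ p, Γ p ≤ 1) (B : Set (Place ℂ C)) (hB : B.Finite) (L : Type) [Field L] [Algebra ℂ L]
    [Algebra L K] [IsScalarTower ℂ L K] [FiniteDimensional L K] {N₀ : ℕ} {y : Fin (N₀ + 1) → L}
    (hy : NormalModel y) {Δ : Place ℂ L → ℚ} (hΔ : Effective y Δ)
    (hLC : LogCanonical y (n + 1) Δ)
    (hΔΓ : ∀ P, IsPrimeDivisor y P → ∀ (Q : Place ℂ K) (e : ℕ), Over Q P e →
      ∀ (p : Place ℂ E) (e' : ℕ), Over Q p e' → 1 ≤ Δ P ∨ e' * Γ p ≤ e * Δ P)
    (hΔB : ∀ P, IsPrimeDivisor y P → ∀ (Q : Place ℂ K) (e : ℕ), Over Q P e → ∀ q ∈ B,
      ∀ e' : ℕ, Over Q q e' → 1 ≤ Δ P)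
    (hneg : ∀ P, NegativeDiscrepancy y (n + 1) Δ P → ∀ (Q : Place ℂ K) (e : ℕ), Over Q P e →
      OverBoundary Γ B Q)
    {c : ℕ} {m : Fin c → ℕ} (x : ∀ i, Fin (m i + 1) → E) (hx : ∀ i, x i 0 = 1)
    (hgen : Lv L (fun i b => (x i b : K)) c = IntermediateField.adjoin L (E : Set K)) {N : ℕ}
    (hN : 0 < N) (M : Fin c → ℕ)
    (hM : ∀ i : Fin c, 2 * N * (finrank L (Lv L (fun i b => (x i b : K)) (i + 1)) -
      finrank L (Lv L (fun i b => (x i b : K)) i)) <
      M i * finrank L (Lv L (fun i b => (x i b : K)) i))
    {ψ : (Fin n → Derivation ℂ E E) → E} (hψ0 : ∃ D, ψ D ≠ 0) (hψp : IsPluri N ψ)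
    (hψ : ∀ (f : ∀ i, Fin (m i + 1)) (p : Place ℂ E), Divisorial n p →
      OGe p (fun D => (∏ i, x i (f i) ^ M i) * ψ D) (-(N * Γ p)))
    {a : ℕ} (s : Fin a → Σ i, Fin (m i + 1))
    (hs : AlgebraicIndependent ℂ fun l => x (s l).1 (s l).2) :
    [kodairaDim y (n + 1) Δ = ⊥,
      ∀ A, Effective y A → Integral y A → numericalDim y (n + 1) Δ A = ⊥,
      IsA1Uniruled ℂ L (n + 1) (NegativeDiscrepancy y (n + 1) Δ),
      kodairaDim y (n + 1) Δ < (a : WithBot ℕ)].TFAE := by
  have hz : Effective y (0 : Place ℂ L → ℚ) :=
    ⟨fun _ _ => le_rfl, Set.finite_empty.subset (by rintro P ⟨-, h⟩; exact h rfl)⟩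
  have hzi : Integral y (0 : Place ℂ L → ℚ) := fun P _ => ⟨0, by simp⟩
  have hdich := pair_dich hEC hE hK hΓ hB hy hΔ hLC hΔΓ hΔB (fun P hP => by
    by_cases h : LogDisc y (n + 1) Δ P 1
    · exact Or.inl h
    · right
      intro Q e hQ
      rcases hneg P ⟨hP, h⟩ Q e hQ with ⟨p, e', h1, h2⟩ | ⟨q, hq, e', h2⟩
      · exact Or.inl ⟨p, e', h1, h2⟩
      · exact Or.inr ⟨q, hq, e', h2⟩) x hx hgen hN M (fun i => by
    have h1 := hM i
    have e1 : 2 * N * (finrank L (Lv L (fun i b => (x i b : K)) (i + 1)) -
        finrank L (Lv L (fun i b => (x i b : K)) i)) =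
        2 * (finrank L (Lv L (fun i b => (x i b : K)) (i + 1)) -
        finrank L (Lv L (fun i b => (x i b : K)) i)) * N := by ring
    rwa [e1] at h1) hψ0 hψp hψ s hs
  have e1 : NegativeDiscrepancy y (n + 1) Δ = NegDisc y (n + 1) Δ := rfl
  rw [e1]
  rcases hdich with ⟨h1, h2, h3⟩ | ⟨h3, d, h1, h2, h4⟩
  · have h5 : kodairaDim y (n + 1) Δ < (a : WithBot ℕ) := by
      rw [h1]
      exact WithBot.bot_lt_coe a
    tfae_have 1 → 2 := fun _ A hA _ => h2 A hA
    tfae_have 2 → 3 := fun _ => h3
    tfae_have 3 → 4 := fun _ => h5
    tfae_have 4 → 1 := fun _ => h1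
    tfae_finish
  · have h5 : ¬ kodairaDim y (n + 1) Δ < (a : WithBot ℕ) := by
      rw [h2, not_lt]
      exact_mod_cast h1
    have h6 : kodairaDim y (n + 1) Δ ≠ ⊥ := by
      rw [h2]
      exact WithBot.coe_ne_bot
    have h7 : ¬ ∀ A, Effective y A → Integral y A → numericalDim y (n + 1) Δ A = ⊥ := by
      intro h8
      have h9 := (h4 0 hz hzi).1
      rw [h8 0 hz hzi] at h9
      exact EReal.natCast_ne_bot d (le_bot_iff.1 h9)
    tfae_have 1 → 2 := fun h => absurd h h6
    tfae_have 2 → 3 := fun h => absurd h h7
    tfae_have 3 → 4 := fun h => absurd h h3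
    tfae_have 4 → 1 := fun h => absurd h h5
    tfae_finish

end Pool.Agent.Results.MP_c1e25c_ag.PairsTimesCurve
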